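import Pool.Agent.H28.LF.T1
import Pool.Agent.H85.LF.LIM

/-!
Project LF (`MP_c59857_nt`), row EXR: exponential sums over primes, rational frequency. The
argument is that of `Pool.Agent.H85.LF.lim_rat`, for an arbitrary bounded periodic function.
-/

set_option autoImplicit false

open MeasureTheory ProbabilityTheory Filter Topology Finset

namespace Pool.Agent.H68.LF

open Pool.Agent.H28.LF
open Pool.Agent.H24.AG (T_VEC T_VDY Pc)
open Pool.Agent.H24.T2 (Pset)
open Pool.Agent.H67.AG (avgP)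
open Pool.Agent.H85.LF
open Pool.Agent.H85.GU

private lemma lim_per (hE : T_VEC) (hD : T_VDY) (r : ℕ) [NeZero r] (g : ℕ → ℝ)
    (hg : ∀ k n, g (k + r * n) = g k) (hg1 : ∀ k, |g k| ≤ 1) :
    Tendsto (fun m => avgP 2 m g) atTop (𝓝 ((∑ b ∈ Sr r, g b) / ((Sr r).card : ℝ))) := by
  obtain ⟨c, hc, m1, hm1⟩ := hD
  have hr0 : 0 < r := NeZero.pos r
  set S := Sr r with hS
  have hScard : 0 < S.card := by
    have h := Sr_card r
    have h2 : (0 : ℝ) < (Fintype.card (ZMod r)ˣ : ℝ) := by exact_mod_cast Fintype.card_pos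
    rw [← h] at h2
    exact_mod_cast h2
  have hSR : (0 : ℝ) < S.card := by exact_mod_cast hScard
  rw [Metric.tendsto_atTop]
  intro ε hε
  set ε' : ℝ := ε * c / (2 * S.card) with hε'
  have hε'0 : 0 < ε' := by positivity
  have hex : ∀ b b' : ℕ, ∃ m₀ : ℕ, b ∈ S → b' ∈ S → ∀ m : ℕ, m₀ ≤ m →
      |((Pc r b m).card : ℝ) - (Pc r b' m).card| ≤ ε' * 2 ^ m / m := by
    intro b b'
    by_cases hb : b ∈ S
    · by_cases hb' : b' ∈ S
      · obtain ⟨m₀, h⟩ := hE r b b' ε' hr0 (mem_filter.mp hb).2 (mem_filter.mp hb').2 hε'0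
        exact ⟨m₀, fun _ _ => h⟩
      · exact ⟨0, fun _ h => absurd h hb'⟩
    · exact ⟨0, fun h => absurd h hb⟩
  choose f hf using hex
  refine ⟨m1 + r + 1 + ∑ b ∈ S, ∑ b' ∈ S, f b b', fun m hm => ?_⟩
  have hfm : ∀ b ∈ S, ∀ b' ∈ S, f b b' ≤ m := by
    intro b hb b' hb'
    have h1 : f b b' ≤ ∑ b' ∈ S, f b b' := single_le_sum (f := f b) (fun _ _ => Nat.zero_le _) hb'
    have h2 : ∑ b' ∈ S, f b b' ≤ ∑ b ∈ S, ∑ b' ∈ S, f b b' :=
      single_le_sum (f := fun b => ∑ b' ∈ S, f b b') (fun _ _ => Nat.zero_le _) hb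
    omega
  have hm1' := hm1 m (by omega)
  rw [← Pset_eq m (by omega)] at hm1'
  have hm0 : (0 : ℝ) < m := by
    have : 0 < m := by omega
    exact_mod_cast this
  have hrm : r ≤ 2 ^ m := by
    have h1 : r ≤ m := by omega
    exact h1.trans Nat.lt_two_pow_self.le
  have hN : (0 : ℝ) < ((Pset 2 m).card : ℝ) := lt_of_lt_of_le (by positivity) hm1'
  have hsum := Pset_eq_biUnion hr0 (show 1 ≤ m by omega) hrm g hg
  have hone := Pset_eq_biUnion hr0 (show 1 ≤ m by omega) hrm (fun _ => (1 : ℝ)) (fun _ _ => rfl)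
  simp only [sum_const, nsmul_eq_mul, mul_one] at hone
  rw [Real.dist_eq]
  unfold avgP
  set N : ℝ := ((Pset 2 m).card : ℝ) with hNdef
  set n : ℕ → ℝ := fun b => ((Pc r b m).card : ℝ) with hn
  set E : ℝ := ε' * 2 ^ m / m with hEdef
  have hcard : ∀ b ∈ S, |n b * S.card - N| ≤ S.card * E := by
    intro b hb
    have h1 : n b * S.card - N = ∑ b' ∈ S, (n b - n b') := by
      rw [sum_sub_distrib, sum_const, nsmul_eq_mul, hone]
      ring
    rw [h1]
    calc |∑ b' ∈ S, (n b - n b')| ≤ ∑ b' ∈ S, |n b - n b'| := abs_sum_le_sum_abs _ _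
      _ ≤ ∑ b' ∈ S, E := sum_le_sum fun b' hb' => hf b b' hb hb' m (hfm b hb b' hb')
      _ = S.card * E := by rw [sum_const, nsmul_eq_mul]
  have e1 : (∑ p ∈ Pset 2 m, g p) / N - (∑ b ∈ S, g b) / S.card
      = (∑ b ∈ S, (n b * S.card - N) * g b) / (N * S.card) := by
    rw [hsum, div_sub_div _ _ hN.ne' hSR.ne']
    congr 1
    simp only [sub_mul, sum_sub_distrib, sum_mul, mul_sum]
    congr 1
    · apply sum_congr rfl
      intro b _
      simp only [hn]
      ring
  rw [e1, abs_div, abs_of_pos (show (0 : ℝ) < N * S.card by positivity), div_lt_iff₀ (by positivity)]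
  calc |∑ b ∈ S, (n b * S.card - N) * g b|
      ≤ ∑ b ∈ S, |(n b * S.card - N) * g b| := abs_sum_le_sum_abs _ _
    _ ≤ ∑ b ∈ S, (S.card * E) * 1 := by
        apply sum_le_sum
        intro b hb
        rw [abs_mul]
        exact mul_le_mul (hcard b hb) (hg1 _) (abs_nonneg _) (by positivity)
    _ = S.card * (S.card * E) := by rw [sum_const, nsmul_eq_mul, mul_one]
    _ = (ε / 2) * (c * 2 ^ m / m) * S.card := by
        rw [hEdef, hε']
        field_simp
    _ ≤ (ε / 2) * N * S.card := by gcongr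
    _ < ε * (N * S.card) := by
        have h9 : 0 < ε * (N * S.card) := by positivity
        have e9 : (ε / 2) * N * S.card = (ε * (N * S.card)) / 2 := by ring
        rw [e9]
        linarith

theorem pf_EXR (hE : T_VEC) (hD : T_VDY) : T_EXR := by
  intro r _ a
  have hr : (r : ℝ) ≠ 0 := by exact_mod_cast NeZero.ne r
  have h1 := lim_per hE hD r (fun p => Real.cos (2 * Real.pi * ((a : ℝ) * p / r))) (fun k n => by
    have e : 2 * Real.pi * ((a : ℝ) * ((k + r * n : ℕ) : ℝ) / r) =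
        2 * Real.pi * ((a : ℝ) * k / r) + ((a * n : ℕ) : ℝ) * (2 * Real.pi) := by
      push_cast
      field_simp
    rw [e, Real.cos_add_nat_mul_two_pi]) (fun k => Real.abs_cos_le_one _)
  rw [Sr_card r] at h1
  have h2 : ∑ b : (ZMod r)ˣ, Real.cos (2 * Real.pi * ((a : ℝ) * (b : ZMod r).val / r)) =
      ∑ b ∈ Sr r, Real.cos (2 * Real.pi * ((a : ℝ) * b / r)) := by
    have h3 := units_sum_eq r fun x => Real.cos (2 * Real.pi * ((a : ℝ) * x.val / r))
    rw [h3]
    unfold Sr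
    rw [sum_filter]
    refine sum_congr rfl fun k hk => ?_
    rw [ZMod.val_natCast, Nat.mod_eq_of_lt (mem_range.1 hk)]
  rw [h2]
  exact h1

end Pool.Agent.H68.LF
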