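import Pool.Agent.H28.LF.T1
import Pool.Agent.H85.LF.LIM

/-!
Project LF (`MP_c59857_nt`), row RSU: the mean of the powers of a root of unity over the units.
-/

set_option autoImplicit false

open Filter Topology Finset

namespace Pool.Agent.H68.LF

open Pool.Agent.H28.LF
open Pool.Agent.H85.LF
open Pool.Agent.H85.GU

theorem pf_RSU : T_RSU := by
  intro r _ a ha
  have hr0 : 0 < r := NeZero.pos r
  have h1 : ∑ b : (ZMod r)ˣ, Real.cos (2 * Real.pi * ((a : ℝ) * (b : ZMod r).val / r)) =
      cc r (a : ZMod r) 1 := by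
    unfold cc
    refine sum_congr rfl fun b _ => ?_
    have e : (a : ZMod r) * (b : ZMod r) * ((1 : ℕ) : ZMod r) =
        (((a : ℤ) * ((b : ZMod r).val : ℤ) : ℤ) : ZMod r) := by
      push_cast
      rw [ZMod.natCast_zmod_val, mul_one]
    rw [e, ZMod.stdAddChar_coe]
    have e2 : 2 * (Real.pi : ℂ) * Complex.I * (((a : ℤ) * ((b : ZMod r).val : ℤ) : ℤ) : ℂ) / (r : ℂ)
        = ((2 * Real.pi * ((a : ℝ) * (b : ZMod r).val / r) : ℝ) : ℂ) * Complex.I := by
      push_cast
      ring
    rw [e2, Complex.exp_ofReal_mul_I_re]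
  have h2 : cc r (a : ZMod r) 1 = (ArithmeticFunction.moebius r : ℝ) := by
    rw [cc_eq]
    rw [sum_eq_single_of_mem r (Nat.mem_divisors_self r hr0.ne')]
    · rw [Nat.div_self hr0, Nat.gcd_one_left]
      simp
    · intro g hg hgr
      have hgN : g ∣ r := Nat.dvd_of_mem_divisors hg
      have hcop : Nat.gcd (r / g) (a : ZMod r).val = 1 := by
        have h3 : Nat.Coprime (a : ZMod r).val r := by
          rw [ZMod.val_natCast]
          have h4 : Nat.gcd a r = 1 := ha
          unfold Nat.Coprime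
          rw [← Nat.gcd_rec, Nat.gcd_comm]
          exact h4
        exact (h3.symm.coprime_dvd_left (Nat.div_dvd_of_dvd hgN))
      rw [hcop, Nat.div_one, if_neg, mul_zero]
      intro h5
      have h6 : r / g = 1 := Nat.dvd_one.1 h5
      apply hgr
      have h7 := Nat.div_mul_cancel hgN
      rw [h6, one_mul] at h7
      exact h7
  have h3 : (Fintype.card (ZMod r)ˣ : ℝ) = (Nat.totient r : ℝ) := by
    rw [ZMod.card_units_eq_totient]
  have h4 : (0 : ℝ) < (Nat.totient r : ℝ) := by exact_mod_cast Nat.totient_pos.2 hr0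
  rw [h1, h2, h3, abs_div, abs_of_pos h4]
  have h5 : |(ArithmeticFunction.moebius r : ℝ)| ≤ 1 := by
    exact_mod_cast ArithmeticFunction.abs_moebius_le_one
  gcongr

end Pool.Agent.H68.LF
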