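import Pool.Agent.H28.LF.F1

/-!
Project LF, row BKX: the invariant set and the bad sets of the `n`-side.
-/

set_option autoImplicit false

open MeasureTheory ProbabilityTheory Filter Topology Finset
open scoped Nat ENNReal

namespace Pool.Agent.H68.LF

open Pool.Agent.H28.LF

/-! ### elementary facts on `em`, `Pr`, `mm` -/

theorem norm_em (t : ℝ) : ‖em t‖ = 1 := by
  unfold Pool.Agent.H28.LF.em
  have : (-(2 * Real.pi * Complex.I * t) : ℂ) = ((-(2 * Real.pi * t) : ℝ) : ℂ) * Complex.I := by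
    push_cast; ring
  rw [this, Complex.norm_exp_ofReal_mul_I]

theorem em_add (s t : ℝ) : em (s + t) = em s * em t := by
  unfold Pool.Agent.H28.LF.em
  rw [← Complex.exp_add]
  congr 1
  push_cast
  ring

theorem norm_Pr (u : Bool × Bool → ℂ) (hu : ∀ b, ‖u b‖ = 1) (w : ℕ → Bool × Bool) (l j : ℕ) :
    ‖Pr u w l j‖ = 1 := by
  unfold Pr
  rw [norm_prod]
  exact Finset.prod_eq_one (fun i _ => hu _)

theorem norm_mm_le (u : Bool × Bool → ℂ) (hu : ∀ b, ‖u b‖ = 1) (K : ℕ) (θ : ℝ)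
    (w : ℕ → Bool × Bool) (l : ℕ) : ‖mm u K θ w l‖ ≤ 1 := by
  unfold mm
  rw [norm_div, Complex.norm_natCast]
  refine div_le_one_of_le₀ ?_ (Nat.cast_nonneg K)
  refine (norm_sum_le _ _).trans ?_
  have : ∀ k ∈ range K, ‖Pool.Agent.H28.LF.em ((k + 1) * θ) * Pr u w l (k + 1)‖ ≤ 1 := by
    intro k _
    rw [norm_mul, norm_em, norm_Pr u hu, one_mul]
  refine (Finset.sum_le_sum this).trans ?_
  simp

theorem shX_apply (ξ : Xi) (t : ℤ) : shX ξ t = ξ (t + 1) := rfl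

theorem shX_iter (L : ℕ) (ξ : Xi) (t : ℤ) : (shX^[L] ξ) t = ξ (t + L) := by
  induction L generalizing ξ t with
  | zero => simp
  | succ L ih =>
    rw [Function.iterate_succ_apply, ih, shX_apply]
    congr 1
    push_cast
    ring

theorem wX_iter (L : ℕ) (ξ : Xi) (i : ℕ) : wX (shX^[L] ξ) i = wX ξ (L + i) := by
  unfold wX
  rw [shX_iter]
  congr 2
  push_cast
  ring

theorem Pr_iter (u : Bool × Bool → ℂ) (L j : ℕ) (ξ : Xi) :
    Pr u (wX (shX^[L] ξ)) 0 j = Pr u (wX ξ) L j := by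
  unfold Pr
  refine Finset.prod_congr rfl (fun i _ => ?_)
  rw [wX_iter, Nat.zero_add]

theorem mm_iter (u : Bool × Bool → ℂ) (K L : ℕ) (θ : ℝ) (ξ : Xi) :
    mm u K θ (wX (shX^[L] ξ)) 0 = mm u K θ (wX ξ) L := by
  unfold mm
  congr 1
  refine Finset.sum_congr rfl (fun k _ => ?_)
  rw [Pr_iter]

theorem continuous_mm (hT : T_THV) (u : Bool × Bool → ℂ) (K : ℕ) :
    Continuous (fun ξ : Xi => mm u K (thX ξ) (wX ξ) 0) := by
  have hth : Continuous (fun ξ : Xi => thX ξ) := by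
    unfold thX
    exact hT.1.comp (continuous_snd.comp (continuous_apply 0))
  have hu : Continuous u := continuous_of_discreteTopology
  have hw : ∀ i, Continuous (fun ξ : Xi => u (wX ξ i)) := by
    intro i
    exact hu.comp (continuous_fst.comp (continuous_apply ((i : ℤ) + 1)))
  unfold mm
  refine Continuous.div_const ?_ _
  refine continuous_finsetSum _ (fun k _ => ?_)
  refine Continuous.mul ?_ ?_
  · unfold Pool.Agent.H28.LF.em
    refine Complex.continuous_exp.comp ?_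
    refine Continuous.neg (Continuous.mul continuous_const ?_)
    exact Complex.continuous_ofReal.comp (continuous_const.mul hth)
  · unfold Pr
    exact continuous_finsetProd _ (fun i _ => hw _)

/-! ### almost everywhere statements -/

theorem iter_qmp {PX : Measure Xi} (h : MeasurePreserving shX PX PX) (L : ℕ) :
    MeasurePreserving (shX^[L]) PX PX := h.iterate L

theorem lab_iter {PX : Measure Xi} (h : MeasurePreserving shX PX PX)
    (hl : ∀ᵐ ξ ∂PX, (ξ 0).2 = (ξ 1).2) (L : ℕ) :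
    ∀ᵐ ξ ∂PX, ((shX^[L] ξ) 0).2 = (ξ 0).2 := by
  induction L with
  | zero => exact Filter.Eventually.of_forall (fun ξ => rfl)
  | succ L ih =>
    have h1 : ∀ᵐ ξ ∂PX, ((shX^[L] ξ) 0).2 = ((shX^[L] ξ) 1).2 :=
      (iter_qmp h L).quasiMeasurePreserving.ae hl
    filter_upwards [ih, h1] with ξ h2 h3
    rw [Function.iterate_succ_apply', shX_apply, zero_add, ← h3, h2]

theorem m_iter {PX : Measure Xi} (u : Bool × Bool → ℂ) (h : MeasurePreserving shX PX PX)
    (hl : ∀ᵐ ξ ∂PX, (ξ 0).2 = (ξ 1).2) (m : Xi → ℂ)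
    (hm : ∀ᵐ ξ ∂PX, em (thX ξ) * u (wX ξ 0) * m (shX ξ) = m ξ) (L : ℕ) :
    ∀ᵐ ξ ∂PX, em (L * thX ξ) * Pr u (wX ξ) 0 L * m (shX^[L] ξ) = m ξ := by
  induction L with
  | zero =>
    refine Filter.Eventually.of_forall (fun ξ => ?_)
    simp [Pool.Agent.H28.LF.em, Pr]
  | succ L ih =>
    have h1 : ∀ᵐ ξ ∂PX, em (thX (shX^[L] ξ)) * u (wX (shX^[L] ξ) 0) * m (shX (shX^[L] ξ)) =
        m (shX^[L] ξ) := (iter_qmp h L).quasiMeasurePreserving.ae hm
    filter_upwards [ih, h1, lab_iter h hl L] with ξ h2 h3 h4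
    have h5 : thX (shX^[L] ξ) = thX ξ := by
      unfold thX; rw [h4]
    have h6 : Pr u (wX ξ) 0 (L + 1) = Pr u (wX ξ) 0 L * u (wX ξ L) := by
      unfold Pr
      rw [Finset.prod_range_succ, Nat.zero_add]
    have h7 : em (((L + 1 : ℕ) : ℝ) * thX ξ) = em (L * thX ξ) * em (thX ξ) := by
      rw [← em_add]; congr 1; push_cast; ring
    rw [h5, wX_iter, Nat.add_zero] at h3
    rw [Function.iterate_succ_apply', h6, h7]
    calc em (L * thX ξ) * em (thX ξ) * (Pr u (wX ξ) 0 L * u (wX ξ L)) * m (shX (shX^[L] ξ))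
        = em (L * thX ξ) * Pr u (wX ξ) 0 L *
            (em (thX ξ) * u (wX ξ L) * m (shX (shX^[L] ξ))) := by ring
      _ = m ξ := by rw [h3, h2]

/-! ### Chebyshev -/

theorem cheb {PX : Measure Xi} [IsProbabilityMeasure PX] (f : Xi → ℂ) (hf : Measurable f)
    (hb : ∀ᵐ ξ ∂PX, ‖f ξ‖ ≤ 2) (δ : ℝ) (hδ : 0 < δ) :
    PX.real {ξ | δ < ‖f ξ‖} ≤ (∫ ξ, ‖f ξ‖ ^ 2 ∂PX) / δ ^ 2 := by
  have hint : Integrable (fun ξ => ‖f ξ‖ ^ 2) PX := by
    refine Integrable.of_bound (hf.norm.pow_const 2).aestronglyMeasurable 4 ?_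
    filter_upwards [hb] with ξ h
    rw [Real.norm_of_nonneg (by positivity)]
    nlinarith [norm_nonneg (f ξ)]
  have h1 := mul_meas_ge_le_integral_of_nonneg (μ := PX)
    (Filter.Eventually.of_forall (fun ξ => by positivity)) hint (δ ^ 2)
  rw [le_div_iff₀ (by positivity)]
  refine le_trans ?_ h1
  rw [mul_comm]
  refine mul_le_mul_of_nonneg_left ?_ (by positivity)
  refine measureReal_mono ?_
  intro ξ hξ
  have hξ' : δ < ‖f ξ‖ := hξ
  exact pow_le_pow_left₀ hδ.le hξ'.le 2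

theorem pf_BKX (hM : T_MEA) (hT : T_THV) : T_BKX := by
  intro u ε PX hu hε hS
  obtain ⟨m, hmm, hm1, hmT, hml⟩ := hM u ε PX hu hS
  have hP := hS.prob
  have hcont := continuous_mm hT u
  set f : ℕ → Xi → ℂ := fun K ξ => mm u K (thX ξ) (wX ξ) 0 - m ξ with hf
  have hfm : ∀ K, Measurable (f K) := fun K => (hcont K).measurable.sub hmm
  have hfb : ∀ K, ∀ᵐ ξ ∂PX, ‖f K ξ‖ ≤ 2 := by
    intro K
    filter_upwards [hm1] with ξ h
    calc ‖f K ξ‖ ≤ ‖mm u K (thX ξ) (wX ξ) 0‖ + ‖m ξ‖ := norm_sub_le _ _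
      _ ≤ 1 + 1 := add_le_add (norm_mm_le u hu _ _ _ _) h
      _ = 2 := by norm_num
  have hlim : ∀ δ : ℝ, 0 < δ → Tendsto (fun K => PX.real {ξ | δ < ‖f K ξ‖}) atTop (𝓝 0) := by
    intro δ hδ
    have h1 : Tendsto (fun K => (∫ ξ, ‖f K ξ‖ ^ 2 ∂PX) / δ ^ 2) atTop (𝓝 0) := by
      have := hml.div_const (δ ^ 2)
      simpa using this
    exact squeeze_zero (fun K => measureReal_nonneg) (fun K => cheb (f K) (hfm K) (hfb K) δ hδ) h1
  -- the invariant set
  set F0 : Set Xi := {ξ | ε / 2 ≤ ‖m ξ‖} with hF0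
  have hF0m : MeasurableSet F0 := measurableSet_le measurable_const hmm.norm
  have hmn : ∀ᵐ ξ ∂PX, ‖m (shX ξ)‖ = ‖m ξ‖ := by
    filter_upwards [hmT] with ξ h
    rw [← h, norm_mul, norm_mul, norm_em, hu, one_mul, one_mul]
  have hpre : shX ⁻¹' F0 =ᵐ[PX] F0 := by
    filter_upwards [hmn] with ξ h
    refine propext ?_
    change ε / 2 ≤ ‖m (shX ξ)‖ ↔ ε / 2 ≤ ‖m ξ‖
    rw [h]
  obtain ⟨F, hFm, hFF, hFT⟩ := hS.inv.quasiMeasurePreserving.exists_preimage_eq_of_preimage_ae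
    hF0m.nullMeasurableSet hpre
  have hF0l : ε / 2 ≤ PX.real F0 := by
    have h1 := (hlim (ε / 2) (by positivity)).eventually (gt_mem_nhds (show (0 : ℝ) < ε / 2 by
      positivity))
    obtain ⟨K, hK, hK1⟩ := (h1.and (eventually_gt_atTop 0)).exists
    have h2 := hS.big K hK1
    have h3 : {ξ | ε ≤ ‖mm u K (thX ξ) (wX ξ) 0‖} ⊆ F0 ∪ {ξ | ε / 2 < ‖f K ξ‖} := by
      intro ξ hξ
      have hξ' : ε ≤ ‖mm u K (thX ξ) (wX ξ) 0‖ := hξ
      by_contra hcon
      rw [Set.mem_union, not_or] at hcon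
      have h4 : ‖m ξ‖ < ε / 2 := not_le.mp hcon.1
      have h5 : ‖f K ξ‖ ≤ ε / 2 := not_lt.mp hcon.2
      have h6 : ‖mm u K (thX ξ) (wX ξ) 0‖ ≤ ‖f K ξ‖ + ‖m ξ‖ := by
        have := norm_add_le (f K ξ) (m ξ)
        simpa [hf] using this
      linarith
    have h4 : PX.real {ξ | ε ≤ ‖mm u K (thX ξ) (wX ξ) 0‖} ≤
        PX.real F0 + PX.real {ξ | ε / 2 < ‖f K ξ‖} :=
      (measureReal_mono h3).trans (measureReal_union_le _ _)
    linarith
  refine ⟨ε / 4, ε / 2, F, by positivity, by positivity, hFm, hFT, ?_, ?_⟩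
  · rw [measureReal_congr hFF]
    exact hF0l
  · intro z hz
    have hd : 0 < min (z / 2) (ε / 4) := lt_min (by positivity) (by positivity)
    refine ⟨fun K => {ξ | min (z / 2) (ε / 4) < ‖f K ξ‖}, ?_, hlim _ hd, ?_⟩
    · intro K
      exact measurableSet_lt measurable_const (hfm K).norm
    · intro K L hK
      have hmL := m_iter u hS.inv hS.lab m hmT L
      have hlL := lab_iter hS.inv hS.lab L
      have hFF' : ∀ᵐ ξ ∂PX, ξ ∈ F → ξ ∈ F0 := by
        filter_upwards [hFF] with ξ h h1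
        exact (Eq.mp h h1 : _)
      filter_upwards [hmL, hlL, hFF'] with ξ h1 h2 h3 h4 h5 h6
      have h7 : ε / 2 ≤ ‖m ξ‖ := h3 h4
      have h8 : ‖f K ξ‖ ≤ min (z / 2) (ε / 4) := not_lt.mp h5
      have h9 : ‖f K (shX^[L] ξ)‖ ≤ min (z / 2) (ε / 4) := not_lt.mp h6
      have hth : thX (shX^[L] ξ) = thX ξ := by
        unfold thX; rw [h2]
      refine ⟨?_, ?_⟩
      · have h10 : ‖m ξ‖ ≤ ‖mm u K (thX ξ) (wX ξ) 0‖ + ‖f K ξ‖ := by
          have := norm_sub_le (mm u K (thX ξ) (wX ξ) 0) (f K ξ)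
          simpa [hf] using this
        have h11 := h8.trans (min_le_right _ _)
        linarith
      · have h12 : f K (shX^[L] ξ) = mm u K (thX ξ) (wX ξ) L - m (shX^[L] ξ) := by
          rw [hf]
          simp only []
          rw [hth, mm_iter]
        have h13 : em (L * thX ξ) * Pr u (wX ξ) 0 L * mm u K (thX ξ) (wX ξ) L -
            mm u K (thX ξ) (wX ξ) 0 =
            em (L * thX ξ) * Pr u (wX ξ) 0 L * f K (shX^[L] ξ) - f K ξ := by
          rw [h12, hf]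
          simp only []
          rw [← h1]
          ring
        rw [h13]
        calc _ ≤ ‖em (L * thX ξ) * Pr u (wX ξ) 0 L * f K (shX^[L] ξ)‖ + ‖f K ξ‖ := norm_sub_le _ _
          _ = ‖f K (shX^[L] ξ)‖ + ‖f K ξ‖ := by
            rw [norm_mul, norm_mul, norm_em, norm_Pr u hu, one_mul, one_mul]
          _ ≤ z / 2 + z / 2 := add_le_add (h9.trans (min_le_left _ _)) (h8.trans (min_le_left _ _))
          _ = z := by ring

end Pool.Agent.H68.LF
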